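import Pool.Agent.Lib.MP_2c4b12_ag.H66Main
import Pool.Agent.Lib.MP_2c4b12_ag.H89Pencil

/-!
# The fundamental group of the Galois cover of a generic projection of `ℂP¹ × T` is not abelian
when `m` does not divide `n` (`n` even)
-/

namespace Pool.Agent.Results.MP_2c4b12_ag.NonAbelian

open Pool.Agent.Gal2c4b12

/-- For every elliptic curve `T = ℂ/(ℤ+ℤτ)`, all `m ≥ 1` and all even `n ≥ 4` with `m ∤ n`,
there is an open set `U` of linear projections, not contained in the zero set of any nonzero
polynomial in the entries of the matrix, such that for every projection in `U` the centre does not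
meet the surface `X^{m,n}` and the fundamental group of the Galois cover is not commutative. -/
theorem result (τ : ℂ) (hτ : 0 < τ.im) (m n : ℕ) (hm : 1 ≤ m) (hn : 4 ≤ n) (hn2 : Even n)
    (hmn : ¬ m ∣ n) :
    ∃ U : Set (Mat m n), IsOpen U ∧
      (∀ P : MvPolynomial (Fin 3 × Fin (m + 1) × Fin n) ℂ, P ≠ 0 →
        ∃ A ∈ U, MvPolynomial.eval (fun z => A z.1 z.2.1 z.2.2) P ≠ 0) ∧
      ∀ A ∈ U, ∃ hA : CentreFree τ A, ∃ x : galCover τ A hA,
        ∃ a b : FundamentalGroup (galCover τ A hA) x, a * b ≠ b * a := by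
  obtain ⟨D⟩ := MP2c4b12.exists_pencil τ hτ n hn2 (by omega)
  obtain ⟨U, hU, hne, h⟩ := main_of_pencil hτ D hm hmn
  exact ⟨U, hU, fun P hP => open_meets U hU hne P hP, h⟩

end Pool.Agent.Results.MP_2c4b12_ag.NonAbelian
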